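import Pool.Agent.Helper47.EP.Goals

/-!
# Packet EP-TR: traces of idempotents of group algebras over a field
-/

set_option autoImplicit false

namespace Pool.Agent.Helper40.EP.TR

open Pool.Agent.Helper47.EP

/-- The trace of the left multiplication with `x` on the group algebra. -/
theorem trace_mulLeft (k : Type) [Field k] (L : Type) [Group L] [Finite L]
    (x : MonoidAlgebra k L) :
    LinearMap.trace k (MonoidAlgebra k L) (LinearMap.mulLeft k x) = (Nat.card L : k) * x.coeff 1 := by
  classical
  have := Fintype.ofFinite L
  rw [LinearMap.trace_eq_matrix_trace k (MonoidAlgebra.basis L k), Matrix.trace]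
  have h : ∀ g : L, Matrix.diag ((LinearMap.toMatrix (MonoidAlgebra.basis L k)
      (MonoidAlgebra.basis L k)) (LinearMap.mulLeft k x)) g = x.coeff 1 := by
    intro g
    rw [Matrix.diag_apply, LinearMap.toMatrix_apply, MonoidAlgebra.basis_apply,
      LinearMap.mulLeft_apply]
    change (x * MonoidAlgebra.single g 1).coeff g = x.coeff 1
    rw [MonoidAlgebra.coeff_mul_single_eq_coeff_mul (m₂ := (1 : L)), mul_one]
    intro m' _
    exact mul_eq_right
  rw [Finset.sum_congr rfl fun g _ => h g, Finset.sum_const, Finset.card_univ, nsmul_eq_mul,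
    Nat.card_eq_fintype_card]

theorem t : S_TR := by
  intro k _ L _ _ g hg
  have hfin : Module.Finite k (MonoidAlgebra k L) := Module.Finite.of_basis (MonoidAlgebra.basis L k)
  have hid : IsIdempotentElem (LinearMap.mulLeft k g) := by
    refine LinearMap.ext fun y => ?_
    change g * (g * y) = g * y
    rw [← mul_assoc, hg]
  have h1 := (LinearMap.IsIdempotentElem.isProj_range _ hid).trace
  rw [trace_mulLeft] at h1
  exact h1

end Pool.Agent.Helper40.EP.TR
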